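import Mathlib

/-! P4 route to rooted (TREE): abstract part (helper44's note 7046).
Seinsche's theorem, Claim A. -/

namespace Pool.Agent.H53.P4

open Relation

variable {V : Type*}

def P4 (A : V → V → Prop) (a b c d : V) : Prop :=
  A a b ∧ A b c ∧ A c d ∧ ¬A a c ∧ ¬A a d ∧ ¬A b d

def Mid (A : V → V → Prop) (D : Finset V) (u v g : V) : Prop :=
  (A g g ↔ ¬A u u) ∧ (A g u ↔ ¬A u u) ∧ (A g v ↔ ¬A u u) ∧
    ∀ y ∈ D, (A u y ↔ A v y) → (A g y ↔ A u y)

def Bad (A : V → V → Prop) (a b c d g : V) : Prop :=
  (A g a ∧ A g b ∧ ¬A g c ∧ ¬A g d) ∨ (A g a ∧ ¬A g b ∧ A g c ∧ ¬A g d) ∨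
    (¬A g a ∧ A g b ∧ ¬A g c ∧ A g d) ∨ (¬A g a ∧ ¬A g b ∧ A g c ∧ A g d)

def Pairs (A : V → V → Prop) (D : Finset V) : Prop :=
  ∀ u ∈ D, ∀ v ∈ D, (A u u ↔ A v v) → (A u v ↔ ¬A u u) → ∃ g ∈ D, Mid A D u v g

def Free (A : V → V → Prop) (D : Finset V) : Prop :=
  ∀ a ∈ D, ∀ b ∈ D, ∀ c ∈ D, ∀ d ∈ D, ¬P4 A a b c d

def R (A : V → V → Prop) (D : Finset V) (u v : V) : Prop := u ∈ D ∧ v ∈ D ∧ A u v

abbrev Reach (A : V → V → Prop) (D : Finset V) : V → V → Prop := ReflTransGen (R A D)

def Conn (A : V → V → Prop) (D : Finset V) : Prop := ∀ p ∈ D, ∀ q ∈ D, Reach A D p q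

def Co (A : V → V → Prop) : V → V → Prop := fun x y => ¬A x y

theorem co_co (A : V → V → Prop) : Co (Co A) = A := by
  funext x y; simp [Co]

theorem co_symm {A : V → V → Prop} (h : ∀ x y, A x y → A y x) : ∀ x y, Co A x y → Co A y x :=
  fun x y hxy hyx => hxy (h y x hyx)

theorem reach_symm {A : V → V → Prop} (h : ∀ x y, A x y → A y x) {D : Finset V} {p q : V}
    (hr : Reach A D p q) : Reach A D q p := by
  induction hr with
  | refl => exact ReflTransGen.refl
  | tail _ hst ih => exact ReflTransGen.head ⟨hst.2.1, hst.1, h _ _ hst.2.2⟩ ih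

theorem reach_mem {A : V → V → Prop} {D : Finset V} {p q : V} (hp : p ∈ D)
    (hr : Reach A D p q) : q ∈ D := by
  induction hr with
  | refl => exact hp
  | tail _ hst _ => exact hst.2.1

theorem P4.co {A : V → V → Prop} (h : ∀ x y, A x y → A y x) {a b c d : V}
    (hp : P4 A a b c d) : P4 (Co A) b d a c := by
  obtain ⟨h1, h2, h3, h4, h5, h6⟩ := hp
  refine ⟨h6, fun h' => h5 (h _ _ h'), h4, fun h' => h' (h _ _ h1), fun h' => h' h2,
    fun h' => h' (h _ _ h3)⟩

theorem Free.co {A : V → V → Prop} (h : ∀ x y, A x y → A y x) {D : Finset V}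
    (hf : Free A D) : Free (Co A) D := by
  intro a ha b hb c hc d hd hp
  have := P4.co (co_symm h) hp
  rw [co_co] at this
  exact hf b hb d hd a ha c hc this

theorem Mid.co {A : V → V → Prop} {D : Finset V} {u v g : V}
    (hm : Mid A D u v g) : Mid (Co A) D u v g := by
  obtain ⟨h1, h2, h3, h4⟩ := hm
  refine ⟨by unfold Co; tauto, by unfold Co; tauto, by unfold Co; tauto, ?_⟩
  intro y hy hyy
  have := h4 y hy (by unfold Co at hyy; tauto)
  unfold Co; tauto

theorem Pairs.co {A : V → V → Prop} {D : Finset V} (hp : Pairs A D) : Pairs (Co A) D := by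
  intro u hu v hv h1 h2
  obtain ⟨g, hg, hm⟩ := hp u hu v hv (by unfold Co at h1; tauto) (by unfold Co at h2; tauto)
  exact ⟨g, hg, hm.co⟩

/-! ### Seinsche -/

theorem seinsche_core {A : V → V → Prop} (h : ∀ x y, A x y → A y x) [DecidableEq V]
    {D' : Finset V} {x : V} (hx : x ∉ D') (hne : D'.Nonempty)
    (hf : Free A (insert x D')) (hc : Conn A (insert x D')) (hcc : Conn (Co A) (insert x D'))
    (hd : ¬Conn A D') : False := by
  -- x has neighbours in every component of D'
  have hcomp : ∀ p ∈ D', ∃ w ∈ D', Reach A D' p w ∧ A x w := by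
    intro p hp
    have key : ∀ s, Reach A (insert x D') p s →
        Reach A D' p s ∨ ∃ w ∈ D', Reach A D' p w ∧ A x w := by
      intro s hs
      induction hs with
      | refl => exact Or.inl ReflTransGen.refl
      | @tail s t _ hst ih =>
        rcases ih with ih | ih
        · have hsD : s ∈ D' := reach_mem hp ih
          by_cases ht : t = x
          · right
            refine ⟨s, hsD, ih, ?_⟩
            rw [← ht]
            exact h _ _ hst.2.2
          · left
            have htD : t ∈ D' := by
              have := hst.2.1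
              rw [Finset.mem_insert] at this
              tauto
            exact ih.tail ⟨hsD, htD, hst.2.2⟩
        · exact Or.inr ih
    rcases key x (hc p (Finset.mem_insert_of_mem hp) x (Finset.mem_insert_self _ _)) with h1 | h1
    · exact absurd (reach_mem hp h1) hx
    · exact h1
  -- a non-neighbour of x
  obtain ⟨y, hy, hxy⟩ : ∃ y ∈ D', ¬A x y := by
    by_contra hcon
    push Not at hcon
    obtain ⟨p, hp⟩ := hne
    have key : ∀ z, Reach (Co A) (insert x D') x z → z = x := by
      intro z hz
      induction hz with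
      | refl => rfl
      | @tail s t _ hst ih =>
        subst ih
        by_contra htx
        have htD : t ∈ D' := by
          have := hst.2.1
          rw [Finset.mem_insert] at this
          tauto
        exact hst.2.2 (hcon t htD)
    have := key p (hcc x (Finset.mem_insert_self _ _) p (Finset.mem_insert_of_mem hp))
    exact hx (this ▸ hp)
  obtain ⟨w, hw, hyw, hxw⟩ := hcomp y hy
  -- an edge u v with u not a neighbour, v a neighbour of x
  have key : ∀ s, Reach A D' y s → (¬A x s) ∨
      ∃ u v, Reach A D' y u ∧ Reach A D' y v ∧ u ∈ D' ∧ v ∈ D' ∧ A u v ∧ ¬A x u ∧ A x v := by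
    intro s hs
    induction hs with
    | refl => exact Or.inl hxy
    | @tail s t hs hst ih =>
      rcases ih with ih | ih
      · by_cases hxt : A x t
        · exact Or.inr ⟨s, t, hs, hs.tail hst, hst.1, hst.2.1, hst.2.2, ih, hxt⟩
        · exact Or.inl hxt
      · exact Or.inr ih
  obtain ⟨u, v, hyu, hyv, hu, hv, huv, hxu, hxv⟩ :
      ∃ u v, Reach A D' y u ∧ Reach A D' y v ∧ u ∈ D' ∧ v ∈ D' ∧ A u v ∧ ¬A x u ∧ A x v := by
    rcases key w hyw with h1 | h1
    · exact absurd hxw h1
    · exact h1
  -- another component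
  obtain ⟨r, hr, hyr⟩ : ∃ r ∈ D', ¬Reach A D' y r := by
    by_contra hcon
    push Not at hcon
    apply hd
    intro p hp q hq
    exact (reach_symm h (hcon p hp)).trans (hcon q hq)
  obtain ⟨t, ht, hrt, hxt⟩ := hcomp r hr
  have hyt : ¬Reach A D' y t := fun h' => hyr (h'.trans (reach_symm h hrt))
  refine hf u (Finset.mem_insert_of_mem hu) v (Finset.mem_insert_of_mem hv) x
    (Finset.mem_insert_self _ _) t (Finset.mem_insert_of_mem ht)
    ⟨huv, h _ _ hxv, hxt, fun h' => hxu (h _ _ h'), fun h' => hyt (hyu.tail ⟨hu, ht, h'⟩),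
      fun h' => hyt (hyv.tail ⟨hv, ht, h'⟩)⟩

theorem Free.mono {A : V → V → Prop} {D E : Finset V} (hf : Free A E) (h : D ⊆ E) : Free A D :=
  fun a ha b hb c hc d hd => hf a (h ha) b (h hb) c (h hc) d (h hd)

theorem seinsche [DecidableEq V] (n : ℕ) : ∀ (A : V → V → Prop), (∀ x y, A x y → A y x) →
    ∀ D : Finset V, D.card = n → 2 ≤ D.card → Free A D → ¬Conn A D ∨ ¬Conn (Co A) D := by
  induction n with
  | zero => intro A _ D h1 h2; omega
  | succ n ih =>
    intro A h D hn h2 hf
    by_contra hcon
    push Not at hcon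
    obtain ⟨hc, hcc⟩ := hcon
    obtain ⟨x, hx⟩ : D.Nonempty := Finset.card_pos.mp (by omega)
    obtain ⟨D', hD', rfl⟩ : ∃ D', x ∉ D' ∧ insert x D' = D :=
      ⟨D.erase x, Finset.notMem_erase _ _, Finset.insert_erase hx⟩
    have hcard : D'.card = n := by
      rw [Finset.card_insert_of_notMem hD'] at hn; omega
    have hne : D'.Nonempty := Finset.card_pos.mp (by omega)
    by_cases h1 : D'.card = 1
    · obtain ⟨y, rfl⟩ := Finset.card_eq_one.mp h1
      have hxy : x ≠ y := by simpa using hD'
      by_cases hA : A x y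
      · -- co disconnected
        have key : ∀ z, Reach (Co A) (insert x {y}) x z → z = x := by
          intro z hz
          induction hz with
          | refl => rfl
          | @tail s t _ hst ih' =>
            subst ih'
            have := hst.2.1
            simp only [Finset.mem_insert, Finset.mem_singleton] at this
            rcases this with rfl | rfl
            · rfl
            · exact absurd hA hst.2.2
        exact hxy (key y (hcc x (by simp) y (by simp))).symm
      · have key : ∀ z, Reach A (insert x {y}) x z → z = x := by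
          intro z hz
          induction hz with
          | refl => rfl
          | @tail s t _ hst ih' =>
            subst ih'
            have := hst.2.1
            simp only [Finset.mem_insert, Finset.mem_singleton] at this
            rcases this with rfl | rfl
            · rfl
            · exact absurd hst.2.2 hA
        exact hxy (key y (hc x (by simp) y (by simp))).symm
    · have hcp := Finset.card_pos.mpr hne
      rcases ih A h D' hcard (by omega) (hf.mono (Finset.subset_insert _ _)) with h3 | h3
      · exact seinsche_core h hD' hne hf hc hcc h3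
      · refine seinsche_core (co_symm h) hD' hne (hf.co h) hcc ?_ h3
        rw [co_co]; exact hc

end Pool.Agent.H53.P4
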