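import Pool.Agent.H53.P4.Basic

/-! P4 route to rooted (TREE): Claim A of helper44's note 7046 and twins. -/

namespace Pool.Agent.H53.P4

open Relation Classical

variable {V : Type*}

theorem Mid.mono {A : V → V → Prop} {D E : Finset V} {u v g : V} (h : D ⊆ E)
    (hm : Mid A E u v g) : Mid A D u v g :=
  ⟨hm.1, hm.2.1, hm.2.2.1, fun y hy => hm.2.2.2 y (h hy)⟩

/-- in a P4-free graph two vertices of a component have distance at most two -/
theorem dist2 {A : V → V → Prop} {D : Finset V} (hf : Free A D) {u v : V} (hu : u ∈ D)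
    (hr : Reach A D u v) : u = v ∨ A u v ∨ ∃ z ∈ D, A u z ∧ A z v := by
  induction hr with
  | refl => exact Or.inl rfl
  | @tail w t huw hst ih =>
    have hw : w ∈ D := hst.1
    have ht : t ∈ D := hst.2.1
    rcases ih with rfl | h1 | ⟨z, hz, h1, h2⟩
    · exact Or.inr (Or.inl hst.2.2)
    · exact Or.inr (Or.inr ⟨w, hw, h1, hst.2.2⟩)
    · by_cases h3 : A z t
      · exact Or.inr (Or.inr ⟨z, hz, h1, h3⟩)
      by_cases h4 : A u t
      · exact Or.inr (Or.inl h4)
      by_cases h5 : A u w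
      · exact Or.inr (Or.inr ⟨w, hw, h5, hst.2.2⟩)
      exact absurd ⟨h1, h2, hst.2.2, h5, h4, h3⟩ (hf u hu z hz w hw t ht)

noncomputable def comp (A : V → V → Prop) (D : Finset V) (x : V) : Finset V :=
  D.filter (fun y => Reach A D x y)

theorem mem_comp {A : V → V → Prop} {D : Finset V} {x y : V} :
    y ∈ comp A D x ↔ y ∈ D ∧ Reach A D x y := by
  simp [comp]

theorem comp_sub {A : V → V → Prop} {D : Finset V} {x : V} : comp A D x ⊆ D :=
  Finset.filter_subset _ _

theorem comp_step {A : V → V → Prop} {D : Finset V} {x y z : V} (hy : y ∈ comp A D x)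
    (hz : z ∈ D) (h : A y z) : z ∈ comp A D x := by
  rw [mem_comp] at *
  exact ⟨hz, hy.2.tail ⟨hy.1, hz, h⟩⟩

theorem comp_pairs {A : V → V → Prop} (h : ∀ x y, A x y → A y x) {D : Finset V}
    (hf : Free A D) (hp : Pairs A D) (x : V) : Pairs A (comp A D x) := by
  intro u hu v hv h1 h2
  obtain ⟨g, hg, hm⟩ := hp u (comp_sub hu) v (comp_sub hv) h1 h2
  refine ⟨g, ?_, hm.mono comp_sub⟩
  by_cases hl : A u u
  · -- loops 1, nonadjacent
    have hvv : A v v := h1.mp hl
    have huv : ¬A u v := fun h' => (h2.mp h') hl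
    have huD := comp_sub hu
    have hvD := comp_sub hv
    have hr : Reach A D u v := (reach_symm h (mem_comp.mp hu).2).trans (mem_comp.mp hv).2
    rcases dist2 hf huD hr with h3 | h3 | ⟨z, hz, h3, h4⟩
    · subst h3; exact absurd hl huv
    · exact absurd h3 huv
    · have hzc : z ∈ comp A D x := comp_step hu hz h3
      have hgz : A g z := (hm.2.2.2 z hz ⟨fun _ => h _ _ h4, fun _ => h3⟩).mpr h3
      exact comp_step hzc hg (h _ _ hgz)
  · have hgu : A g u := hm.2.1.mpr hl
    exact comp_step hu hg (h _ _ hgu)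

/-- constant vertex of D -/
def IsConst (A : V → V → Prop) (D : Finset V) (x : V) : Prop :=
  x ∈ D ∧ ((∀ y ∈ D, ¬A x y) ∨ (∀ y ∈ D, A x y))

/-- from a constant vertex of the component to a full vertex of the component -/
theorem full_of_const {A : V → V → Prop} (h : ∀ x y, A x y → A y x) {D : Finset V}
    (hf : Free A D) {x k : V} (hx : x ∈ D) (hnb : ∃ y ∈ D, A x y)
    (hk : IsConst A (comp A D x) k) : ∀ y ∈ comp A D x, A k y := by
  rcases hk.2 with h1 | h1
  · exfalso
    have hxc : x ∈ comp A D x := mem_comp.mpr ⟨hx, ReflTransGen.refl⟩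
    have hkc := hk.1
    rcases dist2 hf hx (mem_comp.mp hkc).2 with h3 | h3 | ⟨z, hz, h3, h4⟩
    · obtain ⟨y, hy, hxy⟩ := hnb
      rw [← h3] at h1
      exact h1 y (comp_step hxc hy hxy) hxy
    · exact h1 x hxc (h _ _ h3)
    · exact h1 z (comp_step hxc hz h3) (h _ _ h4)
  · exact h1

theorem claimA_disc {A : V → V → Prop} (h : ∀ x y, A x y → A y x) {D : Finset V}
    (hf : Free A D) (hp : Pairs A D) (hd : ¬Conn A D)
    (ih : ∀ E : Finset V, E.card < D.card → Free A E → Pairs A E → E.Nonempty →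
      ∃ x, IsConst A E x) : ∃ x, IsConst A D x := by
  by_cases hiso : ∃ x ∈ D, ∀ y ∈ D, ¬A x y
  · obtain ⟨x, hx, h1⟩ := hiso
    exact ⟨x, hx, Or.inl h1⟩
  push Not at hiso
  unfold Conn at hd
  push Not at hd
  obtain ⟨p, hpD, q, hqD, hpq⟩ := hd
  have hq : q ∉ comp A D p := fun h' => hpq (mem_comp.mp h').2
  have hp' : p ∉ comp A D q := fun h' => hpq (reach_symm h (mem_comp.mp h').2)
  have hpc : p ∈ comp A D p := mem_comp.mpr ⟨hpD, ReflTransGen.refl⟩
  have hqc : q ∈ comp A D q := mem_comp.mpr ⟨hqD, ReflTransGen.refl⟩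
  obtain ⟨f0, hf0⟩ := ih (comp A D p)
    (Finset.card_lt_card (Finset.ssubset_iff_subset_ne.mpr ⟨comp_sub, fun he => hq (by rw [he]; exact hqD)⟩))
    (hf.mono comp_sub) (comp_pairs h hf hp p) ⟨p, hpc⟩
  obtain ⟨f1, hf1⟩ := ih (comp A D q)
    (Finset.card_lt_card (Finset.ssubset_iff_subset_ne.mpr ⟨comp_sub, fun he => hp' (by rw [he]; exact hpD)⟩))
    (hf.mono comp_sub) (comp_pairs h hf hp q) ⟨q, hqc⟩
  have hfull0 := full_of_const h hf hpD (hiso p hpD) hf0
  have hfull1 := full_of_const h hf hqD (hiso q hqD) hf1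
  have hl0 : A f0 f0 := hfull0 f0 hf0.1
  have hl1 : A f1 f1 := hfull1 f1 hf1.1
  have hn01 : ¬A f0 f1 := by
    intro h'
    have h1 : f1 ∈ comp A D p := comp_step hf0.1 (comp_sub hf1.1) h'
    exact hpq ((mem_comp.mp h1).2.trans (reach_symm h (mem_comp.mp hf1.1).2))
  obtain ⟨g, hg, hm⟩ := hp f0 (comp_sub hf0.1) f1 (comp_sub hf1.1)
    ⟨fun _ => hl1, fun _ => hl0⟩ ⟨fun h' => absurd h' hn01, fun h' => absurd hl0 h'⟩
  have hg0 : ¬A g f0 := fun h' => (hm.2.1.mp h') hl0
  have hg1 : ¬A g f1 := fun h' => (hm.2.2.1.mp h') hl0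
  refine ⟨g, hg, Or.inl ?_⟩
  intro y hy hgy
  have hy0 : ¬A f0 y := by
    intro h'
    have hyc : y ∈ comp A D p := comp_step hf0.1 hy h'
    have hgc : g ∈ comp A D p := comp_step hyc hg (h _ _ hgy)
    exact hg0 (h _ _ (hfull0 g hgc))
  have hy1 : ¬A f1 y := by
    intro h'
    have hyc : y ∈ comp A D q := comp_step hf1.1 hy h'
    have hgc : g ∈ comp A D q := comp_step hyc hg (h _ _ hgy)
    exact hg1 (h _ _ (hfull1 g hgc))
  exact hy0 ((hm.2.2.2 y hy ⟨fun h' => absurd h' hy0, fun h' => absurd h' hy1⟩).mp hgy)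

theorem IsConst.co {A : V → V → Prop} {D : Finset V} {x : V} (hx : IsConst (Co A) D x) :
    IsConst A D x := by
  refine ⟨hx.1, ?_⟩
  rcases hx.2 with h1 | h1
  · exact Or.inr (fun y hy => not_not.mp (h1 y hy))
  · exact Or.inl (fun y hy => h1 y hy)

theorem claimA_aux (n : ℕ) : ∀ (A : V → V → Prop), (∀ x y, A x y → A y x) → ∀ D : Finset V,
    D.card = n → Free A D → Pairs A D → D.Nonempty → ∃ x, IsConst A D x := by
  induction n using Nat.strong_induction_on with
  | _ n ih =>
    intro A h D hn hf hp hne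
    by_cases h2 : 2 ≤ D.card
    · rcases seinsche D.card A h D rfl h2 hf with hd | hd
      · exact claimA_disc h hf hp hd
          (fun E hE hfE hpE hneE => ih E.card (hn ▸ hE) A h E rfl hfE hpE hneE)
      · obtain ⟨x, hx⟩ := claimA_disc (co_symm h) (hf.co h) hp.co hd
          (fun E hE hfE hpE hneE => ih E.card (hn ▸ hE) (Co A) (co_symm h) E rfl hfE hpE hneE)
        exact ⟨x, hx.co⟩
    · have h1 : D.card = 1 := by
        have := Finset.card_pos.mpr hne
        omega
      obtain ⟨x, rfl⟩ := Finset.card_eq_one.mp h1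
      refine ⟨x, by simp, ?_⟩
      by_cases hx : A x x
      · right; intro y hy; rw [Finset.mem_singleton] at hy; rw [hy]; exact hx
      · left; intro y hy; rw [Finset.mem_singleton] at hy; rw [hy]; exact hx

/-- **Claim A** -/
theorem claimA {A : V → V → Prop} (h : ∀ x y, A x y → A y x) {D : Finset V}
    (hf : Free A D) (hp : Pairs A D) (hne : D.Nonempty) : ∃ x, IsConst A D x :=
  claimA_aux D.card A h D rfl hf hp hne

/-- **Claim A, component version** -/
theorem claimB {A : V → V → Prop} (h : ∀ x y, A x y → A y x) {D : Finset V}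
    (hf : Free A D) (hp : Pairs A D) {x : V} (hx : x ∈ D) (hnb : ∃ y ∈ D, A x y) :
    ∃ f ∈ comp A D x, ∀ y ∈ comp A D x, A f y := by
  obtain ⟨k, hk⟩ := claimA h (hf.mono (comp_sub (x := x))) (comp_pairs h hf hp x)
    ⟨x, mem_comp.mpr ⟨hx, ReflTransGen.refl⟩⟩
  exact ⟨k, hk.1, full_of_const h hf hx hnb hk⟩

/-! ### twins -/

theorem twins_aux (n : ℕ) : ∀ (A : V → V → Prop), (∀ x y, A x y → A y x) → ∀ D : Finset V,
    D.card = n → 2 ≤ D.card → Free A D →
    ∃ x ∈ D, ∃ y ∈ D, x ≠ y ∧ ∀ w ∈ D, w ≠ x → w ≠ y → (A x w ↔ A y w) := by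
  induction n using Nat.strong_induction_on with
  | _ n ih =>
    intro A h D hn h2 hf
    have main : ∀ (B : V → V → Prop), (∀ x y, B x y → B y x) → Free B D → ¬Conn B D →
        ∃ x ∈ D, ∃ y ∈ D, x ≠ y ∧ ∀ w ∈ D, w ≠ x → w ≠ y → (B x w ↔ B y w) := by
      intro B hB hfB hd
      by_cases hall : ∃ x ∈ D, 2 ≤ (comp B D x).card
      · obtain ⟨x, hx, h3⟩ := hall
        have hlt : (comp B D x).card < D.card := by
          apply Finset.card_lt_card
          refine Finset.ssubset_iff_subset_ne.mpr ⟨comp_sub, fun he => hd ?_⟩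
          intro p hp q hq
          rw [← he] at hp hq
          exact (reach_symm hB (mem_comp.mp hp).2).trans (mem_comp.mp hq).2
        obtain ⟨u, hu, v, hv, huv, htw⟩ := ih _ (hn ▸ hlt) B hB (comp B D x) rfl h3
          (hfB.mono comp_sub)
        refine ⟨u, comp_sub hu, v, comp_sub hv, huv, ?_⟩
        intro w hw hwu hwv
        by_cases hwc : w ∈ comp B D x
        · exact htw w hwc hwu hwv
        · exact ⟨fun h' => absurd (comp_step hu hw h') hwc,
            fun h' => absurd (comp_step hv hw h') hwc⟩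
      · push Not at hall
        obtain ⟨x, hx, y, hy, hxy⟩ := Finset.one_lt_card.mp (by omega : 1 < D.card)
        have hone : ∀ u ∈ D, ∀ w ∈ D, w ≠ u → ¬B u w := by
          intro u hu w hw hwu h'
          have hu' : u ∈ comp B D u := mem_comp.mpr ⟨hu, ReflTransGen.refl⟩
          have hw' : w ∈ comp B D u := comp_step hu' hw h'
          have := Finset.one_lt_card.mpr ⟨u, hu', w, hw', hwu.symm⟩
          have := hall u hu
          omega
        refine ⟨x, hx, y, hy, hxy, ?_⟩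
        intro w hw hwx hwy
        exact ⟨fun h' => absurd h' (hone x hx w hw hwx), fun h' => absurd h' (hone y hy w hw hwy)⟩
    rcases seinsche D.card A h D rfl h2 hf with hd | hd
    · exact main A h hf hd
    · obtain ⟨x, hx, y, hy, hxy, htw⟩ := main (Co A) (co_symm h) (hf.co h) hd
      exact ⟨x, hx, y, hy, hxy, fun w hw h3 h4 => not_iff_not.mp (htw w hw h3 h4)⟩

theorem twins {A : V → V → Prop} (h : ∀ x y, A x y → A y x) {D : Finset V} (h2 : 2 ≤ D.card)
    (hf : Free A D) :
    ∃ x ∈ D, ∃ y ∈ D, x ≠ y ∧ ∀ w ∈ D, w ≠ x → w ≠ y → (A x w ↔ A y w) :=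
  twins_aux D.card A h D rfl h2 hf

end Pool.Agent.H53.P4
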